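import Pool.Agent.H19AB.Final

set_option autoImplicit false

namespace Pool.Agent.Results.MP_dc9045_nt.ExceptionalSet

/-- For all large `N`, at most `N exp (-(log N)^(1/3) / 10)` integers `n ≤ N` with at least two
distinct prime factors have an integral expected absorption time `a n`. -/
theorem result : ∀ᶠ N : ℕ in Filter.atTop,
    (Set.ncard {n : ℕ | n ≤ N ∧ 2 ≤ n.primeFactors.card ∧ ∃ j : ℤ, H19AB.a n = j} : ℝ) ≤
      N * Real.exp (-(Real.log N) ^ ((1 : ℝ) / 3) / 10) :=
  H19AB.exceptional

end Pool.Agent.Results.MP_dc9045_nt.ExceptionalSet
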